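import Mathlib

namespace Pool.Agent.H.MP_3080d1_gt

/-- the Euclidean inner product of two plane vectors -/
def dt (u v : ℂ) : ℝ := u.re * v.re + u.im * v.im

/-- the mirror image of `u` in the line spanned by `d` -/
noncomputable def refl (d u : ℂ) : ℂ := (2 * dt d u / dt d d) • d - u

/-- `g` is a regular real-analytic parametrisation of period one of a simple closed curve -/
structure Curve (g : ℝ → ℂ) : Prop where
  analytic : AnalyticOnNhd ℝ g Set.univ
  simple : ∀ s t, g s = g t ↔ ∃ n : ℤ, t = s + n
  regular : ∀ s, deriv g s ≠ 0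

/-- the ray from `p` in direction `u` reaches `q` without meeting the curve in between -/
def Ray (g : ℝ → ℂ) (p u q : ℂ) : Prop :=
  ∃ r : ℝ, 0 < r ∧ q = p + r • u ∧ ∀ k : ℝ, 0 < k → k < r → p + k • u ∉ Set.range g

/-- every ray from `x` passes through `y` after its second and before its third reflection -/
def Focus (g : ℝ → ℂ) (x y : ℂ) : Prop :=
  ∀ u : ℂ, ‖u‖ = 1 → ∃ s t : ℝ, Ray g x u (g s) ∧ Ray g (g s) (refl (deriv g s) u) (g t) ∧
    Ray g (g t) (refl (deriv g t) (refl (deriv g s) u)) y

end Pool.Agent.H.MP_3080d1_gt
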