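import Mathlib
import Pool.Agent.H.MP_3080d1_gt.D

open scoped ContDiff Topology
open Filter Set

namespace Pool.Agent.H.MP_3080d1_gt

def cr (u v : ℂ) : ℝ := u.re * v.im - u.im * v.re

theorem dt_self (u : ℂ) : dt u u = ‖u‖ ^ 2 := by
  rw [Complex.sq_norm, Complex.normSq_apply, dt]

theorem dt_pos {u : ℂ} (h : u ≠ 0) : 0 < dt u u := by
  rw [dt_self]; positivity

theorem sq_ne {d : ℂ} (h : d ≠ 0) : d.re ^ 2 + d.im ^ 2 ≠ 0 ∧ d.im ^ 2 + d.re ^ 2 ≠ 0 := by
  have := dt_pos h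
  simp only [dt] at this
  constructor <;> nlinarith

theorem refl_refl {d : ℂ} (h : d ≠ 0) (u : ℂ) : refl d (refl d u) = u := by
  obtain ⟨h1, h2⟩ := sq_ne h
  apply Complex.ext <;> simp only [refl, dt, Complex.sub_re, Complex.sub_im, Complex.smul_re,
    Complex.smul_im, smul_eq_mul] <;> field_simp <;> ring

theorem refl_neg (d u : ℂ) : refl d (-u) = -refl d u := by
  apply Complex.ext <;> simp only [refl, dt, Complex.sub_re, Complex.sub_im, Complex.smul_re,
    Complex.smul_im, smul_eq_mul, Complex.neg_re, Complex.neg_im] <;> ring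

theorem dt_refl_refl {d : ℂ} (h : d ≠ 0) (u : ℂ) : dt (refl d u) (refl d u) = dt u u := by
  obtain ⟨h1, h2⟩ := sq_ne h
  simp only [refl, dt, Complex.sub_re, Complex.sub_im, Complex.smul_re,
    Complex.smul_im, smul_eq_mul]
  field_simp; ring

theorem dt_refl {d : ℂ} (h : d ≠ 0) (u : ℂ) : dt (refl d u) d = dt u d := by
  obtain ⟨h1, h2⟩ := sq_ne h
  simp only [refl, dt, Complex.sub_re, Complex.sub_im, Complex.smul_re,
    Complex.smul_im, smul_eq_mul]
  field_simp; ring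

theorem cr_refl (d u : ℂ) : cr d (refl d u) = -cr d u := by
  simp only [refl, cr, Complex.sub_re, Complex.sub_im, Complex.smul_re,
    Complex.smul_im, smul_eq_mul]
  ring

theorem par_eq {d u : ℂ} (h : d ≠ 0) (h0 : cr d u = 0) : u = (dt d u / dt d d) • d := by
  obtain ⟨h1, h2⟩ := sq_ne h
  apply Complex.ext <;> simp only [cr, dt, Complex.smul_re, Complex.smul_im, smul_eq_mul] at h0 ⊢ <;>
    field_simp
  · linear_combination (-d.im) * h0
  · linear_combination d.re * h0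

theorem refl_eq {d u : ℂ} (h : d ≠ 0) : refl d u = u ↔ cr d u = 0 := by
  constructor
  · intro e
    have := cr_refl d u
    rw [e] at this; linarith
  · intro e
    rw [refl, sub_eq_iff_eq_add, mul_div_assoc, two_mul, add_smul, ← par_eq h e]

section
variable {X : Type*} [NormedAddCommGroup X] [NormedSpace ℝ X] {n : WithTop ℕ∞} {u v : X → ℂ}
  {a : X}

@[fun_prop] theorem cd_dt (hu : ContDiffAt ℝ n u a) (hv : ContDiffAt ℝ n v a) :
    ContDiffAt ℝ n (fun s => dt (u s) (v s)) a :=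
  ((Complex.reCLM.contDiff.contDiffAt.comp a hu).mul
    (Complex.reCLM.contDiff.contDiffAt.comp a hv)).add
    ((Complex.imCLM.contDiff.contDiffAt.comp a hu).mul
    (Complex.imCLM.contDiff.contDiffAt.comp a hv))

@[fun_prop] theorem cd_cr (hu : ContDiffAt ℝ n u a) (hv : ContDiffAt ℝ n v a) :
    ContDiffAt ℝ n (fun s => cr (u s) (v s)) a :=
  ((Complex.reCLM.contDiff.contDiffAt.comp a hu).mul
    (Complex.imCLM.contDiff.contDiffAt.comp a hv)).sub
    ((Complex.imCLM.contDiff.contDiffAt.comp a hu).mul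
    (Complex.reCLM.contDiff.contDiffAt.comp a hv))

theorem ift [CompleteSpace X] {E : X × ℝ → ℝ} {t k : ℝ} (hE : ContDiffAt ℝ ω E (a, t))
    (hk : HasDerivAt (fun t => E (a, t)) k t) (k0 : k ≠ 0) :
    ∃ f : X → ℝ, ContDiffAt ℝ ω f a ∧ f a = t ∧
      ∀ᶠ v in 𝓝 (a, t), E v = E (a, t) ↔ f v.1 = v.2 := by
  have inv : (fderiv ℝ E (a, t) ∘L ContinuousLinearMap.inr ℝ X ℝ).IsInvertible := by
    have h1 := (hE.differentiableAt (by simp)).hasFDerivAt.comp t (hasFDerivAt_prodMk_right a t)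
    have h2 := h1.unique hk.hasFDerivAt
    refine ⟨ContinuousLinearEquiv.unitsEquivAut ℝ (Units.mk0 k k0), ?_⟩
    rw [h2]; ext; simp
  exact ⟨hE.implicitFunction (by simp) inv, hE.contDiffAt_implicitFunction (by simp) inv,
    hE.implicitFunction_apply_self (by simp) inv,
    hE.eventually_apply_eq_iff_implicitFunction (by simp) inv⟩
end

theorem hdt {u v : ℝ → ℂ} {u' v' : ℂ} {s : ℝ} (hu : HasDerivAt u u' s) (hv : HasDerivAt v v' s) :
    HasDerivAt (fun t => dt (u t) (v t)) (dt u' (v s) + dt (u s) v') s := by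
  have u1 := Complex.reCLM.hasFDerivAt.comp_hasDerivAt s hu
  have u2 := Complex.imCLM.hasFDerivAt.comp_hasDerivAt s hu
  have v1 := Complex.reCLM.hasFDerivAt.comp_hasDerivAt s hv
  have v2 := Complex.imCLM.hasFDerivAt.comp_hasDerivAt s hv
  refine ((u1.mul v1).add (u2.mul v2)).congr_deriv ?_
  simp only [dt, Function.comp, Complex.reCLM_apply, Complex.imCLM_apply]; ring

theorem hcr1 (e c : ℂ) {v : ℝ → ℂ} {v' : ℂ} {s : ℝ} (hv : HasDerivAt v v' s) :
    HasDerivAt (fun t => cr e (v t - c)) (cr e v') s := by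
  have v1 := Complex.reCLM.hasFDerivAt.comp_hasDerivAt s (hv.sub_const c)
  have v2 := Complex.imCLM.hasFDerivAt.comp_hasDerivAt s (hv.sub_const c)
  exact (v2.const_mul e.re).sub (v1.const_mul e.im)

theorem cnt {X : Type*} [TopologicalSpace X] [SecondCountableTopology X] {S : Set X}
    (h : ∀ p ∈ S, ∀ᶠ q in 𝓝[≠] p, q ∉ S) : S.Countable := by
  refine (HereditarilyLindelofSpace.isLindelof S).countable_of_isDiscrete ?_
  rw [isDiscrete_iff_nhdsNE]
  intro p hp
  exact inf_principal_eq_bot.2 (h p hp)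

variable {g : ℝ → ℂ} {x y p : ℂ}

noncomputable def nn (g : ℝ → ℂ) (p : ℂ) (s : ℝ) : ℝ := ‖g s - p‖
noncomputable def uu (g : ℝ → ℂ) (p : ℂ) (s : ℝ) : ℂ := (nn g p s)⁻¹ • (g s - p)
noncomputable def vv (g : ℝ → ℂ) (p : ℂ) (s : ℝ) : ℂ := refl (deriv g s) (uu g p s)
def Gz (g : ℝ → ℂ) (p : ℂ) (s : ℝ) : Prop := cr (deriv g s) (uu g p s) = 0

theorem Curve.cd (hg : Curve g) (s : ℝ) : ContDiffAt ℝ ω g s :=
  (hg.analytic s trivial).contDiffAt

theorem Curve.cd' (hg : Curve g) (s : ℝ) : ContDiffAt ℝ ω (deriv g) s :=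
  (hg.analytic.deriv s trivial).contDiffAt

theorem Curve.hd (hg : Curve g) (s : ℝ) : HasDerivAt g (deriv g s) s :=
  (hg.analytic s trivial).differentiableAt.hasDerivAt

theorem Curve.cont (hg : Curve g) : Continuous g :=
  continuous_iff_continuousAt.2 fun s => (hg.hd s).continuousAt

theorem Curve.deq (hg : Curve g) {s t : ℝ} (h : g s = g t) : deriv g s = deriv g t := by
  obtain ⟨n, rfl⟩ := (hg.simple s t).1 h
  have e : (fun u => g (u + n)) = g := by
    funext u; exact ((hg.simple u (u + n)).2 ⟨n, rfl⟩).symm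
  have := deriv_comp_add_const g (n : ℝ) s
  rw [e] at this; exact this

theorem Curve.fract (hg : Curve g) (s : ℝ) : g (Int.fract s) = g s :=
  (hg.simple _ s).2 ⟨⌊s⌋, by have := Int.floor_add_fract s; linarith⟩

theorem fract_mem (s : ℝ) : Int.fract s ∈ Icc (0 : ℝ) 1 :=
  ⟨Int.fract_nonneg s, (Int.fract_lt_one s).le⟩

theorem Curve.ne (hg : Curve g) (s : ℝ) : ∀ᶠ t in 𝓝[≠] s, g t ≠ g s := by
  filter_upwards [nhdsWithin_le_nhds (Metric.ball_mem_nhds s one_pos), self_mem_nhdsWithin]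
    with t h1 h2 h
  obtain ⟨n, hn⟩ := (hg.simple s t).1 h.symm
  rw [Metric.mem_ball, Real.dist_eq, hn, add_sub_cancel_left] at h1
  have : |n| < 1 := by exact_mod_cast h1
  have : n = 0 := by rwa [Int.abs_lt_one_iff] at this
  exact h2 (by simp [hn, this])

theorem nn_pos (hp : p ∉ range g) (s : ℝ) : 0 < nn g p s :=
  norm_pos_iff.2 (sub_ne_zero.2 fun e => hp ⟨s, e⟩)

theorem nn_uu (hp : p ∉ range g) (s : ℝ) : g s = p + nn g p s • uu g p s := by
  rw [uu, smul_inv_smul₀ (nn_pos hp s).ne']; ring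

theorem uu_norm (hp : p ∉ range g) (s : ℝ) : ‖uu g p s‖ = 1 := by
  rw [uu, norm_smul, norm_inv, Real.norm_of_nonneg (nn_pos hp s).le]
  exact inv_mul_cancel₀ (nn_pos hp s).ne'

theorem uu_dt (hp : p ∉ range g) (s : ℝ) : dt (uu g p s) (uu g p s) = 1 := by
  rw [dt_self, uu_norm hp]; simp

theorem uu_of {u : ℂ} {r s : ℝ} (hu : ‖u‖ = 1) (hr : 0 < r) (h : g s = p + r • u) :
    nn g p s = r ∧ uu g p s = u := by
  have : nn g p s = r := by
    rw [nn, h, add_sub_cancel_left, norm_smul, hu, Real.norm_of_nonneg hr.le, mul_one]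
  refine ⟨this, ?_⟩
  rw [uu, this, h, add_sub_cancel_left, inv_smul_smul₀ hr.ne']

theorem Curve.vv_dt (hg : Curve g) (hp : p ∉ range g) (s : ℝ) : dt (vv g p s) (vv g p s) = 1 := by
  rw [vv, dt_refl_refl (hg.regular s), uu_dt hp]

theorem Curve.vv_norm (hg : Curve g) (hp : p ∉ range g) (s : ℝ) : ‖vv g p s‖ = 1 := by
  have := hg.vv_dt hp s
  rw [dt_self] at this
  exact (pow_eq_one_iff_of_nonneg (norm_nonneg _) two_ne_zero).1 this

theorem Curve.gz (hg : Curve g) (s : ℝ) : Gz g p s ↔ vv g p s = uu g p s :=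
  (refl_eq (hg.regular s)).symm

theorem Curve.cd_nn (hg : Curve g) (hp : p ∉ range g) (s : ℝ) : ContDiffAt ℝ ω (nn g p) s :=
  ((hg.cd s).sub contDiffAt_const).norm ℝ (sub_ne_zero.2 fun e => hp ⟨s, e⟩)

theorem Curve.cd_uu (hg : Curve g) (hp : p ∉ range g) (s : ℝ) : ContDiffAt ℝ ω (uu g p) s :=
  ((hg.cd_nn hp s).inv (nn_pos hp s).ne').smul ((hg.cd s).sub contDiffAt_const)

theorem Curve.cd_vv (hg : Curve g) (hp : p ∉ range g) (s : ℝ) : ContDiffAt ℝ ω (vv g p) s :=
  (((contDiffAt_const.mul (cd_dt (hg.cd' s) (hg.cd_uu hp s))).div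
    (cd_dt (hg.cd' s) (hg.cd' s)) (dt_pos (hg.regular s)).ne').smul (hg.cd' s)).sub (hg.cd_uu hp s)

theorem Curve.hd_nn (hg : Curve g) (hp : p ∉ range g) (s : ℝ) :
    HasDerivAt (nn g p) (dt (vv g p s) (deriv g s)) s := by
  have h1 := ((hg.cd_nn hp s).differentiableAt (by simp)).hasDerivAt
  have h2 := hdt ((hg.hd s).sub_const p) ((hg.hd s).sub_const p)
  have e : (fun t => dt (g t - p) (g t - p)) = fun t => nn g p t * nn g p t := by
    funext t; rw [dt_self, sq, nn]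
  rw [e] at h2
  have := (h1.mul h1).unique h2
  refine h1.congr_deriv ?_
  rw [vv, dt_refl (hg.regular s)]
  apply mul_left_cancel₀ (nn_pos hp s).ne'
  have e2 : g s - p = nn g p s • uu g p s := by rw [uu, smul_inv_smul₀ (nn_pos hp s).ne']
  rw [e2] at this
  simp only [dt, Complex.smul_re, Complex.smul_im, smul_eq_mul] at this ⊢
  linear_combination (1 / 2) * this

theorem Curve.congr (hg : Curve g) {s t : ℝ} (h : g s = g t) (p : ℂ) :
    nn g p s = nn g p t ∧ uu g p s = uu g p t ∧ vv g p s = vv g p t := by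
  simp [nn, uu, vv, h, hg.deq h]

theorem Curve.exmax (hg : Curve g) {G : ℝ → ℝ} (hG : Continuous G)
    (h : ∀ s t, g s = g t → G s = G t) : ∃ s, ∀ t, G t ≤ G s := by
  obtain ⟨s, -, hs⟩ := isCompact_Icc.exists_isMaxOn ⟨0, left_mem_Icc.2 zero_le_one⟩
    hG.continuousOn
  exact ⟨s, fun t => h _ _ (hg.fract t) ▸ hs (fract_mem t)⟩

theorem anz {Y : Type*} [NormedAddCommGroup Y] [NormedSpace ℝ Y] [CompleteSpace Y] {f : ℝ → Y}
    {c : Y} (hf : ∀ s, ContDiffAt ℝ ω f s) (h : ∃ s, f s ≠ c) (s : ℝ) :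
    ∀ᶠ t in 𝓝[≠] s, f t ≠ c := by
  by_contra hc
  obtain ⟨t, ht⟩ := h
  have := AnalyticOnNhd.eqOn_of_preconnected_of_frequently_eq (U := univ)
    (fun s _ => (hf s).analyticAt) (analyticOnNhd_const (v := c)) isPreconnected_univ
    (mem_univ s) (by simpa using hc)
  exact ht (this trivial)

theorem Curve.ngz (hg : Curve g) (hp : p ∉ range g) (s : ℝ) : ∀ᶠ t in 𝓝[≠] s, ¬Gz g p t := by
  refine anz (fun s => cd_cr (hg.cd' s) (hg.cd_uu hp s)) ?_ s
  obtain ⟨m, hm⟩ := hg.exmax (G := nn g p)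
    (continuous_iff_continuousAt.2 fun s => (hg.cd_nn hp s).continuousAt)
    (fun s t h => (hg.congr h p).1)
  have lm : IsLocalMax (nn g p) m := Eventually.of_forall hm
  have h0 := lm.hasDerivAt_eq_zero (hg.hd_nn hp m)
  refine ⟨m, fun h => ?_⟩
  rw [(hg.gz m).1 h] at h0
  have h1 := uu_dt hp m
  have h2 := dt_pos (hg.regular m)
  simp only [dt, cr] at h h0 h1 h2
  have : (deriv g m).re * (deriv g m).re + (deriv g m).im * (deriv g m).im = 0 := by
    linear_combination (-((deriv g m).re * (deriv g m).re + (deriv g m).im * (deriv g m).im)) * h1 +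
      ((deriv g m).re * (uu g p m).im - (deriv g m).im * (uu g p m).re) * h +
      ((uu g p m).re * (deriv g m).re + (uu g p m).im * (deriv g m).im) * h0
  linarith

end Pool.Agent.H.MP_3080d1_gt
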