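import Mathlib
import Pool.Agent.H.MP_3080d1_gt.A

open scoped ContDiff Topology
open Filter Set

namespace Pool.Agent.H.MP_3080d1_gt

variable {g : ℝ → ℂ} {x y : ℂ} {L : ℝ}

def Rel (g : ℝ → ℂ) (x y : ℂ) (L s t : ℝ) : Prop :=
  g t = g s + (L - nn g x s - nn g y t) • vv g x s ∧ vv g y t = -vv g x s

noncomputable def WW (g : ℝ → ℂ) (x : ℂ) (L s : ℝ) : ℂ := g s + (L - nn g x s) • vv g x s

def Acc (g : ℝ → ℂ) (x y : ℂ) (L s t : ℝ) : Prop := ∃ᶠ p in 𝓝[≠] (s, t), Rel g x y L p.1 p.2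

theorem Rel.symm {s t : ℝ} (h : Rel g x y L s t) : Rel g y x L t s := by
  refine ⟨?_, by rw [h.2, neg_neg]⟩
  rw [h.2, h.1]; module

theorem Rel.ww {s t : ℝ} (h : Rel g x y L s t) : g t = WW g x L s - nn g y t • vv g x s := by
  rw [WW]; nth_rewrite 1 [h.1]; module

theorem Rel.wy {s t : ℝ} (hy : y ∉ range g) (h : Rel g x y L s t) :
    WW g x L s - y = nn g y t • (uu g y t + vv g x s) := by
  have h1 := h.ww
  have h2 := nn_uu hy t
  rw [smul_add]
  linear_combination (exp := 1) h2 - h1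

theorem Curve.nd (hg : Curve g) (hx : x ∉ range g) (hy : y ∉ range g) {s t : ℝ}
    (h : Rel g x y L s t) : dt (WW g x L s - y) (WW g x L s - y) =
      nn g y t * (2 * dt (WW g x L s - y) (vv g x s)) := by
  rw [h.wy hy]
  have h1 := uu_dt hy t
  have h2 := hg.vv_dt hx s
  simp only [dt, Complex.smul_re, Complex.smul_im, Complex.add_re, Complex.add_im,
    smul_eq_mul] at h1 h2 ⊢
  linear_combination (nn g y t) ^ 2 * h1 - (nn g y t) ^ 2 * h2

theorem Curve.uniq (hg : Curve g) (hx : x ∉ range g) (hy : y ∉ range g) {s t s' t' : ℝ}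
    (h : Rel g x y L s t) (h' : Rel g x y L s' t') (e1 : WW g x L s' = WW g x L s)
    (e2 : vv g x s' = vv g x s) (hw : WW g x L s ≠ y) : g t = g t' := by
  have a := hg.nd hx hy h
  have b := hg.nd hx hy h'
  rw [e1, e2, a] at b
  have c := dt_pos (sub_ne_zero.2 hw)
  have : nn g y t = nn g y t' := by
    refine mul_right_cancel₀ (fun h0 => ?_) b
    rw [a, h0, mul_zero] at c
    exact lt_irrefl _ c
  rw [h.ww, h'.ww, e1, e2, this]

theorem Curve.wgz (hg : Curve g) (hy : y ∉ range g) {s t : ℝ} (h : Rel g x y L s t) :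
    WW g x L s = y ↔ Gz g y t := by
  rw [hg.gz, ← sub_eq_zero, h.wy hy, smul_eq_zero, h.2, or_iff_right (nn_pos hy t).ne',
    add_eq_zero_iff_eq_neg, eq_comm]

theorem Curve.rel_congr (hg : Curve g) {s t s' t' : ℝ} (e1 : g s = g s') (e2 : g t = g t')
    (h : Rel g x y L s t) : Rel g x y L s' t' := by
  unfold Rel at h ⊢
  rwa [← e1, ← e2, ← (hg.congr e1 x).1, ← (hg.congr e1 x).2.2, ← (hg.congr e2 y).1,
    ← (hg.congr e2 y).2.2]

theorem Curve.cd_ww (hg : Curve g) (hx : x ∉ range g) (s : ℝ) : ContDiffAt ℝ ω (WW g x L) s :=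
  (hg.cd s).add ((contDiffAt_const.sub (hg.cd_nn hx s)).smul (hg.cd_vv hx s))

theorem Curve.closed (hg : Curve g) (hx : x ∉ range g) (hy : y ∉ range g) :
    IsClosed {p : ℝ × ℝ | Rel g x y L p.1 p.2} := by
  have c1 : ∀ {p}, p ∉ range g → Continuous (nn g p) := fun hp =>
    continuous_iff_continuousAt.2 fun s => (hg.cd_nn hp s).continuousAt
  have c2 : ∀ {p}, p ∉ range g → Continuous (vv g p) := fun hp =>
    continuous_iff_continuousAt.2 fun s => (hg.cd_vv hp s).continuousAt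
  have := c1 hx; have := c1 hy; have := c2 hx; have := c2 hy; have := hg.cont
  exact (isClosed_eq (by fun_prop) (by fun_prop)).inter (isClosed_eq (by fun_prop) (by fun_prop))

theorem Curve.acc_rel (hg : Curve g) (hx : x ∉ range g) (hy : y ∉ range g) {s t : ℝ}
    (h : Acc g x y L s t) : Rel g x y L s t :=
  (hg.closed hx hy).mem_of_frequently_of_tendsto (f := id) (x := (s, t)) h
    nhdsWithin_le_nhds

theorem acc_closed : IsClosed {p : ℝ × ℝ | Acc g x y L p.1 p.2} := by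
  have := isClosed_derivedSet {p : ℝ × ℝ | Rel g x y L p.1 p.2}
  convert this using 1
  ext p
  simp only [mem_derivedSet, accPt_iff_frequently_nhdsNE, Acc, mem_ofPred_eq]

theorem tends_ne {X Y : Type*} [TopologicalSpace X] [TopologicalSpace Y] {f : X → Y} {a : X}
    (hf : ContinuousAt f a) (hi : Function.Injective f) : Tendsto f (𝓝[≠] a) (𝓝[≠] (f a)) :=
  tendsto_nhdsWithin_iff.2 ⟨hf.tendsto.mono_left nhdsWithin_le_nhds,
    eventually_nhdsWithin_of_forall fun _ h e => h (hi e)⟩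

theorem Acc.symm {s t : ℝ} (h : Acc g x y L s t) : Acc g y x L t s :=
  (tends_ne (f := Prod.swap) continuous_swap.continuousAt Prod.swap_injective).frequently
    (Frequently.mono h fun _ h => h.symm)

theorem Curve.acc_congr (hg : Curve g) {s t s' t' : ℝ} (e1 : g s = g s') (e2 : g t = g t')
    (h : Acc g x y L s t) : Acc g x y L s' t' := by
  obtain ⟨n, rfl⟩ := (hg.simple _ _).1 e1
  obtain ⟨m, rfl⟩ := (hg.simple _ _).1 e2
  exact (tends_ne (f := fun p : ℝ × ℝ => p + ((n : ℝ), (m : ℝ))) (a := (s, t)) (by fun_prop)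
    (add_left_injective _)).frequently (Frequently.mono h fun p h =>
      hg.rel_congr ((hg.simple _ _).2 ⟨n, rfl⟩) ((hg.simple _ _).2 ⟨m, rfl⟩) h)

theorem acc_graph {f : ℝ → ℝ} {s : ℝ} (hf : ContinuousAt f s)
    (h : ∀ᶠ u in 𝓝 s, Rel g x y L u (f u)) : Acc g x y L s (f s) :=
  (tends_ne (f := fun u => (u, f u)) (by fun_prop) (fun _ _ e => congrArg Prod.fst e)).frequently
    (h.filter_mono nhdsWithin_le_nhds).frequently

theorem Curve.acc_fst (hg : Curve g) (hx : x ∉ range g) (hy : y ∉ range g) {s t : ℝ}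
    (h : Acc g x y L s t) : ∃ᶠ p in 𝓝 (s, t), p.1 ≠ s ∧ Rel g x y L p.1 p.2 := by
  by_contra hc
  rw [not_frequently] at hc
  have h0 := hg.acc_rel hx hy h
  have h1 := (hg.ne t).and (hg.ngz hy t)
  rw [eventually_nhdsWithin_iff] at h1
  have h2 := (continuous_snd.tendsto (s, t)).eventually h1
  obtain ⟨⟨a, b⟩, ⟨k1, k2, k3⟩, k4⟩ := ((Frequently.and_eventually h
    ((hc.and h2).filter_mono nhdsWithin_le_nhds)).and_eventually self_mem_nhdsWithin).exists
  have e : a = s := by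
    by_contra e; exact k2 ⟨e, k1⟩
  subst e
  have k5 := k3 (fun e => k4 (by simp only [mem_singleton_iff] at e; simp [e]))
  exact k5.1 (hg.uniq hx hy k1 h0 rfl rfl fun e => k5.2 ((hg.wgz hy k1).1 e))

theorem idf {Y X : Type*} [NormedAddCommGroup Y] [NormedSpace ℝ Y] [CompleteSpace Y]
    {F : Filter X} [F.NeBot] {π : X → ℝ} {s : ℝ} (hπ : Tendsto π F (𝓝[≠] s)) {h1 h2 : ℝ → Y}
    (a1 : ContDiffAt ℝ ω h1 s) (a2 : ContDiffAt ℝ ω h2 s) (h : ∀ᶠ p in F, h1 (π p) = h2 (π p)) :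
    ∀ᶠ u in 𝓝 s, h1 u = h2 u :=
  (a1.analyticAt.frequently_eq_iff_eventually_eq a2.analyticAt).1 (hπ.frequently h.frequently)

theorem quot {X : Type*} {F : Filter X} [F.NeBot] {π n : X → ℝ} {s c : ℝ}
    (hπ : Tendsto π F (𝓝[≠] s)) {N D : ℝ → ℝ} (a1 : ContDiffAt ℝ ω N s) (a2 : ContDiffAt ℝ ω D s)
    (hN : ∀ᶠ u in 𝓝[≠] s, N u ≠ 0) (hn : Tendsto n F (𝓝 c)) (c0 : c ≠ 0)
    (h : ∀ᶠ p in F, N (π p) = n p * D (π p)) :
    ∃ r : ℝ → ℝ, ContDiffAt ℝ ω r s ∧ ∀ᶠ p in F, r (π p) = n p := by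
  have hπ' : Tendsto π F (𝓝 s) := hπ.mono_right nhdsWithin_le_nhds
  obtain ⟨k, N1, b1, b2, b3⟩ := a1.analyticAt.exists_eventuallyEq_pow_smul_nonzero_iff.2 (by
    intro h0
    obtain ⟨u, h1, h2⟩ := (hN.and (h0.filter_mono nhdsWithin_le_nhds)).exists
    exact h1 h2)
  obtain ⟨m, D1, c1, c2, c3⟩ := a2.analyticAt.exists_eventuallyEq_pow_smul_nonzero_iff.2 (by
    intro h0
    obtain ⟨u, ⟨h1, h2⟩, h3⟩ := (((hπ.eventually hN).and (hπ'.eventually h0)).and h).exists
    rw [h2, mul_zero] at h3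
    exact h1 h3)
  have key : ∀ᶠ p in F, π p - s ≠ 0 ∧
      (π p - s) ^ k * N1 (π p) = n p * ((π p - s) ^ m * D1 (π p)) := by
    filter_upwards [hπ'.eventually b3, hπ'.eventually c3, h, hπ.eventually self_mem_nhdsWithin]
      with p h1 h2 h3 h4
    rw [h1, h2] at h3
    exact ⟨sub_ne_zero.2 h4, h3⟩
  have t0 : Tendsto (fun p => π p - s) F (𝓝 0) := by simpa using hπ'.sub_const s
  have tN := b1.continuousAt.tendsto.comp hπ'
  have tD := c1.continuousAt.tendsto.comp hπ'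
  rcases lt_trichotomy k m with hk | hk | hk
  · obtain ⟨j, rfl⟩ := Nat.exists_eq_add_of_lt hk
    have := tendsto_nhds_unique_of_eventuallyEq tN (hn.mul ((t0.pow (j + 1)).mul tD)) (by
      filter_upwards [key] with p hp
      apply mul_left_cancel₀ (pow_ne_zero k hp.1)
      simp only [Function.comp]
      linear_combination hp.2)
    exact absurd (by simpa using this) b2
  · subst hk
    refine ⟨fun u => N1 u / D1 u, (b1.div c1 c2).contDiffAt, ?_⟩
    filter_upwards [key, tD.eventually_ne c2] with p hp h0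
    rw [div_eq_iff (show D1 (π p) ≠ 0 from h0)]
    apply mul_left_cancel₀ (pow_ne_zero k hp.1)
    linear_combination hp.2
  · obtain ⟨j, rfl⟩ := Nat.exists_eq_add_of_lt hk
    have := tendsto_nhds_unique_of_eventuallyEq (hn.mul tD) ((t0.pow (j + 1)).mul tN) (by
      filter_upwards [key] with p hp
      apply mul_left_cancel₀ (pow_ne_zero m hp.1)
      simp only [Function.comp]
      linear_combination -hp.2)
    exact absurd (by simpa using this) (mul_ne_zero c0 c2)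

theorem Curve.loc (hg : Curve g) (hx : x ∉ range g) (hy : y ∉ range g)
    (hw : ∃ s, WW g x L s ≠ y) {s t : ℝ} (h : Acc g x y L s t) :
    ∃ f : ℝ → ℝ, ContinuousAt f s ∧ f s = t ∧ ∀ᶠ u in 𝓝 s, Acc g x y L u (f u) := by
  let F := 𝓝 (s, t) ⊓ 𝓟 {p : ℝ × ℝ | p.1 ≠ s ∧ Rel g x y L p.1 p.2}
  have : F.NeBot := frequently_iff_neBot.1 (hg.acc_fst hx hy h)
  have F1 : F ≤ 𝓝 (s, t) := inf_le_left
  have F2 : ∀ᶠ p in F, p.1 ≠ s ∧ Rel g x y L p.1 p.2 :=
    mem_inf_of_right (mem_principal_self _)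
  have π1 : Tendsto Prod.fst F (𝓝[≠] s) := tendsto_nhdsWithin_iff.2
    ⟨(continuous_fst.tendsto _).mono_left F1, F2.mono fun _ h => h.1⟩
  have π2 : Tendsto Prod.snd F (𝓝 t) := (continuous_snd.tendsto _).mono_left F1
  have cW := hg.cd_ww (L := L) hx s
  have cv := hg.cd_vv hx s
  obtain ⟨r, cr', hr⟩ := quot π1 (N := fun u => dt (WW g x L u - y) (WW g x L u - y))
    (D := fun u => 2 * dt (WW g x L u - y) (vv g x u)) (by fun_prop) (by fun_prop)
    ((anz (hg.cd_ww hx) hw s).mono fun u h => (dt_pos (sub_ne_zero.2 h)).ne')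
    ((hg.cd_nn hy t).continuousAt.tendsto.comp π2) (nn_pos hy t).ne'
    (F2.mono fun p h => hg.nd hx hy h.2)
  let B : ℝ → ℂ := fun u => WW g x L u - r u • vv g x u
  have cB : ContDiffAt ℝ ω B s := by fun_prop
  have hB : ∀ᶠ p in F, B p.1 = g p.2 := by
    filter_upwards [hr, F2] with p h1 h2
    simp only [B, h1, h2.2.ww, Function.comp]
  have B0 : B s = g t := tendsto_nhds_unique_of_eventuallyEq
    (cB.continuousAt.tendsto.comp (π1.mono_right nhdsWithin_le_nhds))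
    ((hg.cont.tendsto t).comp π2) hB
  obtain ⟨f, cf, ft, hf⟩ := ift (E := fun p : ℝ × ℝ => dt (deriv g t) (g p.2 - B p.1)) (a := s)
    (cd_dt contDiffAt_const (((hg.cd t).comp (s, t) contDiffAt_snd).sub
      (cB.comp (s, t) contDiffAt_fst)))
    (hdt (hasDerivAt_const t (deriv g t)) ((hg.hd t).sub_const (B s)))
    (by simpa [dt] using (dt_pos (hg.regular t)).ne')
  have hft : ∀ᶠ p in F, f p.1 = p.2 := by
    filter_upwards [F1 hf, hB] with p h1 h2
    exact h1.1 (by simp [h2, B0])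
  have e1 := idf π1 (((ft ▸ hg.cd t :) : ContDiffAt ℝ ω g (f s)).comp s cf) cB (by
    filter_upwards [hft, hB] with p h1 h2
    simp only [Function.comp, h1, h2])
  have e2 := idf π1 (((ft ▸ hg.cd_nn hy t :) : ContDiffAt ℝ ω (nn g y) (f s)).comp s cf) cr' (by
    filter_upwards [hft, hr] with p h1 h2
    simp only [Function.comp, h1, h2])
  have e3 := idf π1 (((ft ▸ hg.cd_vv hy t :) : ContDiffAt ℝ ω (vv g y) (f s)).comp s cf) cv.neg (by
    filter_upwards [hft, F2] with p h1 h2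
    simp only [Function.comp, h1, h2.2.2])
  have e4 : ∀ᶠ u in 𝓝 s, Rel g x y L u (f u) := by
    filter_upwards [e1, e2, e3] with u h1 h2 h3
    refine ⟨?_, h3⟩
    simp only [Function.comp, B, WW] at h1 h2
    rw [h1, h2]; module
  refine ⟨f, cf.continuousAt, ft, ?_⟩
  filter_upwards [e4.eventually_nhds, cf.analyticAt.eventually_analyticAt] with u h1 h2
  exact acc_graph h2.continuousAt h1

structure Fam (g : ℝ → ℂ) (x y : ℂ) (L : ℝ) : Prop where
  cv : Curve g
  hx : x ∉ range g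
  hy : y ∉ range g
  wx : ∃ s, WW g x L s ≠ y
  wy : ∃ s, WW g y L s ≠ x
  hL : ‖x - y‖ < L
  ex : ∃ s t, Acc g x y L s t ∧ 0 < L - nn g x s - nn g y t

theorem Fam.symm (h : Fam g x y L) : Fam g y x L := by
  obtain ⟨s, t, h1, h2⟩ := h.ex
  exact ⟨h.cv, h.hy, h.hx, h.wy, h.wx, by rw [norm_sub_rev]; exact h.hL, t, s, h1.symm, by linarith⟩

theorem Fam.rel (h : Fam g x y L) {s t : ℝ} (a : Acc g x y L s t) : Rel g x y L s t :=
  h.cv.acc_rel h.hx h.hy a

theorem Fam.total (h : Fam g x y L) (s : ℝ) : ∃ t, Acc g x y L s t := by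
  have o : IsOpen {s | ∃ t, Acc g x y L s t} := by
    rw [isOpen_iff_mem_nhds]
    rintro s ⟨t, ht⟩
    obtain ⟨f, -, -, hf⟩ := h.cv.loc h.hx h.hy h.wx ht
    exact hf.mono fun u hu => ⟨_, hu⟩
  have c : IsClosed {s | ∃ t, Acc g x y L s t} := by
    refine IsSeqClosed.isClosed fun u s hu hs => ?_
    choose t ht using hu
    obtain ⟨t0, -, φ, hφ, h0⟩ := isCompact_Icc.tendsto_subseq fun n => fract_mem (t n)
    exact ⟨t0, acc_closed.mem_of_tendsto ((hs.comp hφ.tendsto_atTop).prodMk_nhds h0)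
      (Eventually.of_forall fun n => h.cv.acc_congr rfl (h.cv.fract _).symm (ht _))⟩
  obtain ⟨a, b, h1, -⟩ := h.ex
  have := IsClopen.eq_univ ⟨c, o⟩ ⟨a, b, h1⟩
  exact (this ▸ mem_univ s :)

theorem Fam.func (h : Fam g x y L) {s t s' t' : ℝ} (a : Acc g x y L s t) (b : Acc g x y L s' t')
    (e : g s' = g s) : g t = g t' := by
  obtain ⟨f, cf, rfl, hf⟩ := h.cv.loc h.hx h.hy h.wx a
  obtain ⟨f', cf', rfl, hf'⟩ := h.cv.loc h.hx h.hy h.wx (h.cv.acc_congr e rfl b)
  refine tendsto_nhds_unique_of_eventuallyEq (l := 𝓝[≠] s)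
    (((h.cv.cont.tendsto _).comp cf).mono_left nhdsWithin_le_nhds)
    (((h.cv.cont.tendsto _).comp cf').mono_left nhdsWithin_le_nhds) ?_
  filter_upwards [nhdsWithin_le_nhds hf, nhdsWithin_le_nhds hf', anz (h.cv.cd_ww h.hx) h.wx s]
    with u h1 h2 h3
  exact h.cv.uniq h.hx h.hy (h.rel h1) (h.rel h2) rfl rfl h3

theorem Fam.ne (h : Fam g x y L) {s t : ℝ} (a : Rel g x y L s t) :
    L - nn g x s - nn g y t ≠ 0 := by
  intro e
  have e1 : g t = g s := by rw [a.1, e]; simp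
  have e2 : uu g y s = -uu g x s := by
    have := a.2
    rw [(h.cv.congr e1 y).2.2, vv, vv, ← refl_neg] at this
    rw [← refl_refl (h.cv.regular s) (uu g y s), this, refl_refl (h.cv.regular s)]
  have e3 : x - y = (-L) • uu g x s := by
    have h1 := nn_uu h.hx s
    have h2 := nn_uu h.hy s
    rw [e2] at h2
    rw [(h.cv.congr e1 y).1] at e
    rw [show L = nn g x s + nn g y s by linarith]
    linear_combination (norm := module) h2 - h1
  have := h.hL
  rw [e3, norm_smul, uu_norm h.hx, norm_neg, mul_one] at this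
  have h2 : 0 < L := lt_of_le_of_lt (norm_nonneg _) h.hL
  rw [Real.norm_of_nonneg h2.le] at this
  exact lt_irrefl _ this

theorem Fam.pos (h : Fam g x y L) {s t : ℝ} (a : Acc g x y L s t) :
    0 < L - nn g x s - nn g y t := by
  have o : ∀ e : ℝ, IsOpen {s | ∃ t, Acc g x y L s t ∧ 0 < e * (L - nn g x s - nn g y t)} := by
    intro e
    rw [isOpen_iff_mem_nhds]
    rintro s ⟨t, ht, h0⟩
    obtain ⟨f, cf, rfl, hf⟩ := h.cv.loc h.hx h.hy h.wx ht
    have c1 := (h.cv.cd_nn h.hx s).continuousAt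
    have c2 := (h.cv.cd_nn h.hy (f s)).continuousAt.comp cf
    have c : ContinuousAt (fun u => e * (L - nn g x u - nn g y (f u))) s :=
      continuousAt_const.mul ((continuousAt_const.sub c1).sub c2)
    filter_upwards [hf, c.eventually (lt_mem_nhds h0)] with u h1 h2
    exact ⟨_, h1, h2⟩
  have dj : ∀ s t t', Acc g x y L s t → Acc g x y L s t' → nn g y t = nn g y t' :=
    fun s t t' a b => (h.cv.congr (h.func a b rfl) y).1
  have := isPreconnected_univ.subset_left_of_subset_union (o 1) (o (-1)) ?_ ?_ ?_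
  · obtain ⟨t', h1, h2⟩ := this (mem_univ s)
    rw [dj s t t' a h1]; linarith
  · rw [Set.disjoint_left]
    rintro s ⟨t, h1, h2⟩ ⟨t', h3, h4⟩
    rw [dj s t t' h1 h3] at h2; linarith
  · intro s _
    obtain ⟨t, ht⟩ := h.total s
    rcases lt_or_gt_of_ne (h.ne (h.rel ht)) with k | k
    · exact Or.inr ⟨t, ht, by linarith⟩
    · exact Or.inl ⟨t, ht, by linarith⟩
  · obtain ⟨s, t, h1, h2⟩ := h.ex
    exact ⟨s, trivial, t, h1, by linarith⟩

theorem Fam.le {L' : ℝ} (h : Fam g x y L) (h' : Fam g x y L') : L' ≤ L := by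
  obtain ⟨t, ht⟩ := h.cv.exmax (G := fun t => -dt (WW g y 0 t) (vv g y t))
    (continuous_iff_continuousAt.2 fun s =>
      (cd_dt (h.cv.cd_ww h.hy s) (h.cv.cd_vv h.hy s)).neg.continuousAt) (fun s t e => by
      simp only [WW, e, (h.cv.congr e y).1, (h.cv.congr e y).2.2])
  obtain ⟨s, hs⟩ := h.symm.total t
  obtain ⟨t', ht'⟩ := h'.total s
  have a := h.rel hs.symm
  have b := h'.rel ht'
  have e := ht t'
  have k := h.cv.vv_dt h.hx s
  simp only [WW, a.2, b.2] at e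
  rw [a.1, b.1] at e
  simp only [dt, Complex.smul_re, Complex.smul_im, Complex.add_re, Complex.add_im,
    smul_eq_mul, Complex.neg_re, Complex.neg_im] at e k
  nlinarith

end Pool.Agent.H.MP_3080d1_gt
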