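import Mathlib
import Pool.Agent.H.MP_3080d1_gt.B

open scoped ContDiff Topology
open Filter Set

namespace Pool.Agent.H.MP_3080d1_gt

variable {g : ℝ → ℂ} {x y : ℂ} {L : ℝ}

def Seg (g : ℝ → ℂ) (p q : ℂ) : Prop := ∀ k : ℝ, 0 < k → k < 1 → p + k • (q - p) ∉ range g

def Real (g : ℝ → ℂ) (x y : ℂ) (s t : ℝ) : Prop :=
  Seg g x (g s) ∧ (∃ ρ : ℝ, 0 < ρ ∧ g t = g s + ρ • vv g x s) ∧ Seg g (g s) (g t) ∧
    vv g y t = -vv g x s ∧ Seg g (g t) y

theorem Ray.seg {p u q : ℂ} (h : Ray g p u q) : Seg g p q := by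
  obtain ⟨r, r0, rfl, h⟩ := h
  intro k k0 k1
  rw [add_sub_cancel_left, smul_smul]
  exact h _ (mul_pos k0 r0) (by nlinarith)

theorem Seg.symm {p q : ℂ} (h : Seg g p q) : Seg g q p := by
  intro k k0 k1
  have := h (1 - k) (by linarith) (by linarith)
  rwa [show p + (1 - k) • (q - p) = q + k • (p - q) by module] at this

theorem Seg.le {p q u : ℂ} (h : Seg g p q) {r r' a : ℝ} (e : q = p + r' • u)
    (e' : g a = p + r • u) (r0 : 0 < r) : r' ≤ r := by
  by_contra hc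
  have h1 : r < r' := not_le.1 hc
  have h2 : 0 < r' := r0.trans h1
  refine h (r / r') (by positivity) ((div_lt_one h2).2 h1) ⟨a, ?_⟩
  rw [e', e, add_sub_cancel_left, smul_smul, div_mul_cancel₀ _ h2.ne']

theorem Seg.eq {p u : ℂ} {r r' a b : ℝ} (h : Seg g p (g a)) (h' : Seg g p (g b))
    (e : g a = p + r • u) (e' : g b = p + r' • u) (r0 : 0 < r) (r1 : 0 < r') : g a = g b := by
  rw [e, e', le_antisymm (h.le e e' r1) (h'.le e' e r0)]

theorem Curve.real_congr (hg : Curve g) {s t s' t' : ℝ} (e1 : g s = g s') (e2 : g t = g t')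
    (h : Real g x y s t) : Real g x y s' t' := by
  unfold Real at h ⊢
  rwa [← e1, ← e2, ← (hg.congr e1 x).2.2, ← (hg.congr e2 y).2.2]

theorem Curve.real (hg : Curve g) (h : Focus g x y) {u : ℂ} (hu : ‖u‖ = 1) :
    ∃ s ∈ Icc (0 : ℝ) 1, ∃ t ∈ Icc (0 : ℝ) 1, uu g x s = u ∧ Real g x y s t := by
  obtain ⟨s, t, h1, h2, h3⟩ := h u hu
  have k1 := h1.seg
  have k2 := h2.seg
  have k3 := h3.seg
  obtain ⟨r, r0, e1, -⟩ := h1
  obtain ⟨ρ, ρ0, e2, -⟩ := h2
  obtain ⟨l, l0, e3, -⟩ := h3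
  have e4 := (uu_of hu r0 e1).2
  have n1 : ‖-refl (deriv g t) (refl (deriv g s) u)‖ = 1 := by
    have := dt_refl_refl (hg.regular t) (refl (deriv g s) u)
    rw [dt_refl_refl (hg.regular s), dt_self, dt_self, hu, one_pow] at this
    rw [norm_neg]
    exact (pow_eq_one_iff_of_nonneg (norm_nonneg _) two_ne_zero).1 this
  have e5 := (uu_of (g := g) (p := y) (s := t) n1 l0 (by rw [e3]; module)).2
  refine ⟨_, fract_mem s, _, fract_mem t, ((hg.congr (hg.fract s) x).2.1).trans e4,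
    hg.real_congr (hg.fract s).symm (hg.fract t).symm ⟨k1, ⟨ρ, ρ0, by rw [vv, e4, e2]⟩, k2, ?_, k3⟩⟩
  rw [vv, vv, e5, e4, refl_neg, refl_refl (hg.regular t)]

theorem real_inj {s s' t : ℝ} (h : Real g x y s t) (h' : Real g x y s' t) :
    g s = g s' := by
  obtain ⟨-, ⟨ρ, ρ0, e⟩, k, e2, -⟩ := h
  obtain ⟨-, ⟨ρ', ρ0', e'⟩, k', e2', -⟩ := h'
  exact k.symm.eq k'.symm (u := vv g y t) (by rw [e2, e]; module) (by rw [e2', e']; module) ρ0 ρ0'

def Good (g : ℝ → ℂ) (x y : ℂ) : Set (ℝ × ℝ) :=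
  {p | p.1 ∈ Icc (0 : ℝ) 1 ∧ p.2 ∈ Icc (0 : ℝ) 1 ∧ Real g x y p.1 p.2 ∧ ¬Gz g x p.1 ∧ ¬Gz g y p.2}

theorem Curve.lt (hg : Curve g) (hx : x ∉ range g) (hy : y ∉ range g) {s t : ℝ}
    (h : Rel g x y L s t) (h0 : 0 < L - nn g x s - nn g y t) (hz : ¬Gz g y t) : ‖x - y‖ < L := by
  set ρ := L - nn g x s - nn g y t with hρ
  have e : x - y = (nn g y t • uu g y t + ρ • vv g y t) - nn g x s • uu g x s := by
    have h1 := nn_uu hx s
    have h2 := nn_uu hy t
    have h3 := h.1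
    rw [h.2]
    linear_combination (norm := module) h2 - h1 - h3
  have n1 : ‖nn g y t • uu g y t‖ = nn g y t := by
    rw [norm_smul, uu_norm hy, mul_one, Real.norm_of_nonneg (nn_pos hy t).le]
  have n2 : ‖ρ • vv g y t‖ = ρ := by
    rw [norm_smul, hg.vv_norm hy, mul_one, Real.norm_of_nonneg h0.le]
  have n3 : ‖nn g x s • uu g x s‖ = nn g x s := by
    rw [norm_smul, uu_norm hx, mul_one, Real.norm_of_nonneg (nn_pos hx s).le]
  have : ¬SameRay ℝ (nn g y t • uu g y t) (ρ • vv g y t) := by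
    intro h
    have h := (h.pos_smul_left (inv_pos.2 (nn_pos hy t))).pos_smul_right (inv_pos.2 h0)
    rw [inv_smul_smul₀ (nn_pos hy t).ne', inv_smul_smul₀ h0.ne'] at h
    exact hz ((hg.gz t).2 (h.eq_of_norm_eq (by rw [uu_norm hy, hg.vv_norm hy])).symm)
  have h5 := norm_add_lt_of_not_sameRay this
  have h6 := norm_sub_le (nn g y t • uu g y t + ρ • vv g y t) (nn g x s • uu g x s)
  rw [e]; linarith

theorem Curve.good (hg : Curve g) (hx : x ∉ range g) (hy : y ∉ range g) {s t : ℝ}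
    (hp : (s, t) ∈ Good g x y) (ha : ∃ᶠ q in 𝓝[≠] (s, t), q ∈ Good g x y) :
    ∃ L, Fam g x y L ∧ Acc g x y L s t := by
  obtain ⟨-, -, ⟨-, ⟨ρ, ρ0, e⟩, -, e2, -⟩, z1, z2⟩ := hp
  simp only at e e2 z1 z2
  have E0 : ∀ s t, Real g x y s t → cr (vv g x s) (g t - g s) = 0 := by
    rintro s t ⟨-, ⟨ρ, -, e⟩, -⟩
    rw [e, add_sub_cancel_left]; simp only [cr, Complex.smul_re, Complex.smul_im, smul_eq_mul]; ring
  have E1 : cr (vv g x s) (g t - g s) = 0 := by
    rw [e, add_sub_cancel_left]; simp only [cr, Complex.smul_re, Complex.smul_im, smul_eq_mul]; ring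
  obtain ⟨f, cf, ft, hf⟩ := ift (E := fun p : ℝ × ℝ => cr (vv g x p.1) (g p.2 - g p.1)) (a := s)
    (cd_cr ((hg.cd_vv hx s).comp (s, t) contDiffAt_fst) (((hg.cd t).comp (s, t) contDiffAt_snd).sub
      ((hg.cd s).comp (s, t) contDiffAt_fst))) (hcr1 (vv g x s) (g s) (hg.hd t)) (by
      intro h0
      apply z2
      have := cr_refl (deriv g t) (uu g y t)
      rw [← vv, e2] at this
      simp only [Gz, cr, Complex.neg_re, Complex.neg_im] at h0 this ⊢
      linarith)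
  simp only [E1] at hf
  let F := 𝓝[≠] (s, t) ⊓ 𝓟 (Good g x y)
  have : F.NeBot := frequently_iff_neBot.1 ha
  have F1 : F ≤ 𝓝 (s, t) := inf_le_left.trans nhdsWithin_le_nhds
  have F2 : ∀ᶠ p in F, p ∈ Good g x y := mem_inf_of_right (mem_principal_self _)
  have F3 : ∀ᶠ p in F, f p.1 = p.2 := by
    filter_upwards [F1 hf, F2] with p h1 h2
    exact h1.1 (E0 _ _ h2.2.2.1)
  have π1 : Tendsto Prod.fst F (𝓝[≠] s) := by
    refine tendsto_nhdsWithin_iff.2 ⟨(continuous_fst.tendsto _).mono_left F1, ?_⟩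
    filter_upwards [F3, mem_inf_of_left self_mem_nhdsWithin] with p h1 h2 h3
    exact h2 (Prod.ext h3 (by rw [← h1, show p.1 = s from h3, ft]))
  have e3 := idf π1 (((ft ▸ hg.cd_vv hy t :) : ContDiffAt ℝ ω (vv g y) (f s)).comp s cf)
    (hg.cd_vv hx s).neg (by
    filter_upwards [F3, F2] with p h1 h2
    simp only [Function.comp, h1, h2.2.2.1.2.2.2.1])
  have e4 : ∀ᶠ u in 𝓝 s, g (f u) - g u = dt (vv g x u) (g (f u) - g u) • vv g x u := by
    have : Tendsto (fun u => (u, f u)) (𝓝 s) (𝓝 (s, t)) :=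
      tendsto_id.prodMk_nhds (ft ▸ cf.continuousAt.tendsto)
    filter_upwards [this.eventually hf] with u h1
    have := par_eq (by rw [← norm_ne_zero_iff, hg.vv_norm hx u]; simp) (h1.2 rfl)
    rwa [hg.vv_dt hx, div_one] at this
  let l : ℝ → ℝ := fun u => nn g x u + dt (vv g x u) (g (f u) - g u) + nn g y (f u)
  have e5 : ∀ᶠ u in 𝓝 s, HasDerivAt l 0 u := by
    filter_upwards [e3, e4, cf.analyticAt.eventually_analyticAt] with u h1 h2 h3
    have df := h3.differentiableAt.hasDerivAt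
    have dv := ((hg.cd_vv hx u).differentiableAt (by simp)).hasDerivAt
    have d0 := (hdt dv dv).unique (by
      simp only [hg.vv_dt hx]; exact hasDerivAt_const u (1 : ℝ))
    refine (((hg.hd_nn hx u).add (hdt dv (((hg.hd (f u)).scomp u df).sub (hg.hd u)))).add
      ((hg.hd_nn hy (f u)).comp u df)).congr_deriv ?_
    simp only [Function.comp, Pi.sub_apply] at h1 ⊢
    rw [h1, h2]
    simp only [dt, Complex.smul_re, Complex.smul_im, Complex.sub_re, Complex.sub_im,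
      smul_eq_mul, Complex.neg_re, Complex.neg_im] at d0 ⊢
    linear_combination (((vv g x u).re * ((g (f u)).re - (g u).re) +
      (vv g x u).im * ((g (f u)).im - (g u).im)) / 2) * d0
  obtain ⟨δ, δ0, hδ⟩ := Metric.eventually_nhds_iff_ball.1 e5
  have e6 : ∀ᶠ u in 𝓝 s, l u = l s := by
    filter_upwards [Metric.ball_mem_nhds s δ0] with u hu
    exact Metric.isOpen_ball.is_const_of_deriv_eq_zero (convex_ball s δ).isPreconnected
      (fun v hv => (hδ v hv).differentiableAt.differentiableWithinAt)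
      (fun v hv => (hδ v hv).deriv) hu (Metric.mem_ball_self δ0)
  have e7 : ∀ᶠ u in 𝓝 s, Rel g x y (l s) u (f u) := by
    filter_upwards [e3, e4, e6] with u h1 h2 h3
    refine ⟨?_, h1⟩
    rw [← h3, ← sub_eq_iff_eq_add', h2]
    congr 1
    simp only [l]; ring
  have a := acc_graph cf.continuousAt e7
  rw [ft] at a
  have r := hg.acc_rel hx hy a
  have p0 : 0 < l s - nn g x s - nn g y t := by
    have : dt (vv g x s) (g t - g s) = ρ := by
      have := hg.vv_dt hx s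
      rw [e, add_sub_cancel_left]
      simp only [dt, Complex.smul_re, Complex.smul_im, smul_eq_mul] at this ⊢
      linear_combination ρ * this
    simp only [l, ft, this]; linarith
  exact ⟨l s, ⟨hg, hx, hy, ⟨s, fun h => z2 ((hg.wgz hy r).1 h)⟩,
    ⟨t, fun h => z1 ((hg.wgz hx r.symm).1 h)⟩, hg.lt hx hy r p0 z2, s, t, a, p0⟩, a⟩

theorem Curve.dens (hg : Curve g) (hx : x ∉ range g) (hy : y ∉ range g) (h : Focus g x y)
    (a η : ℝ) (η0 : 0 < η) : ∃ s t, (s, t) ∈ Good g x y ∧ (∃ᶠ q in 𝓝[≠] (s, t), q ∈ Good g x y) ∧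
      ∃ s', dist s' a < η ∧ uu g x s = uu g x s' := by
  by_contra hc
  push Not at hc
  have c1 : {s | Gz g x s}.Countable := cnt fun s _ => hg.ngz hx s
  have c2 : {s | Gz g y s}.Countable := cnt fun s _ => hg.ngz hy s
  have c3 : {p | p ∈ Good g x y ∧ ∀ᶠ q in 𝓝[≠] p, q ∉ Good g x y}.Countable :=
    cnt fun p hp => hp.2.mono fun q h1 h2 => h1 h2.1
  have c4 : (⋃ t ∈ {s | Gz g y s}, {u | ∃ s, Real g x y s t ∧ uu g x s = u}).Countable := by
    refine c2.biUnion fun t _ => Set.Subsingleton.countable ?_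
    rintro _ ⟨s, h1, rfl⟩ _ ⟨s', h2, rfl⟩
    exact (hg.congr (real_inj h1 h2) x).2.1
  have c5 : (uu g x '' Metric.ball a η).Countable := by
    refine (((c1.image (uu g x)).union c4).union (c3.image fun p => uu g x p.1)).mono ?_
    rintro _ ⟨s', hs', rfl⟩
    obtain ⟨s, h1, t, h2, h3, h4⟩ := hg.real h (uu_norm hx s')
    by_cases z1 : Gz g x s
    · exact Or.inl (Or.inl ⟨s, z1, h3⟩)
    by_cases z2 : Gz g y t
    · exact Or.inl (Or.inr (mem_biUnion z2 ⟨s, h4, h3⟩))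
    refine Or.inr ⟨(s, t), ⟨⟨h1, h2, h4, z1, z2⟩, ?_⟩, h3⟩
    by_contra h5
    exact hc s t ⟨h1, h2, h4, z1, z2⟩ (by simpa using h5) s' hs' h3
  have cu : Continuous (uu g x) :=
    continuous_iff_continuousAt.2 fun s => (hg.cd_uu hx s).continuousAt
  have sub := c5.isTotallyDisconnected _ subset_rfl
    ((convex_ball a η).isPreconnected.image _ cu.continuousOn)
  obtain ⟨s, h1, h2⟩ := ((hg.ngz hx a).and (nhdsWithin_le_nhds (Metric.ball_mem_nhds a η0))).exists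
  have d := hcr1 (uu g x s) x (hg.hd s)
  have d0 := d.unique ((hasDerivAt_const s (0 : ℝ)).congr_of_eventuallyEq (by
    filter_upwards [Metric.isOpen_ball.mem_nhds h2] with u hu
    rw [sub ⟨s, h2, rfl⟩ ⟨u, hu, rfl⟩, nn_uu hx u, add_sub_cancel_left]
    simp only [cr, Complex.smul_re, Complex.smul_im, smul_eq_mul]; ring))
  apply h1
  simp only [Gz, cr] at d0 ⊢
  linarith

theorem Curve.cross (hg : Curve g) {p q : ℂ} {c k : ℝ} (k0 : 0 < k) (k1 : k < 1)
    (e : g c = p + k • (q - p)) (h : cr (q - p) (deriv g c) ≠ 0) :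
    ∀ᶠ z in 𝓝 (p, q), ¬Seg g z.1 z.2 := by
  have ne : q - p ≠ 0 := fun e => h (by simp [e, cr])
  obtain ⟨f, cf, ft, hf⟩ := ift (E := fun z : (ℂ × ℂ) × ℝ => cr (z.1.2 - z.1.1) (g z.2 - z.1.1))
    (a := (p, q)) (cd_cr (by fun_prop) (((hg.cd c).comp ((p, q), c) contDiffAt_snd).sub
      (by fun_prop))) (hcr1 (q - p) p (hg.hd c)) h
  have E1 : cr (q - p) (g c - p) = 0 := by
    rw [e, add_sub_cancel_left]; simp only [cr, Complex.smul_re, Complex.smul_im, smul_eq_mul]; ring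
  simp only [E1] at hf
  have t1 : Tendsto (fun u => (u, f u)) (𝓝 (p, q)) (𝓝 ((p, q), c)) :=
    tendsto_id.prodMk_nhds (ft ▸ cf.continuousAt.tendsto)
  let κ : ℂ × ℂ → ℝ := fun z => dt (z.2 - z.1) (g (f z) - z.1) / dt (z.2 - z.1) (z.2 - z.1)
  have cκ : ContinuousAt κ (p, q) :=
    ((cd_dt (by fun_prop) ((((ft ▸ hg.cd c :) : ContDiffAt ℝ ω g (f (p, q))).comp (p, q) cf).sub
      (by fun_prop))).div (cd_dt (by fun_prop) (by fun_prop)) (dt_pos ne).ne').continuousAt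
  have κ0 : κ (p, q) = k := by
    simp only [κ, ft, e, add_sub_cancel_left]
    rw [div_eq_iff (dt_pos ne).ne']
    simp only [dt, Complex.smul_re, Complex.smul_im, smul_eq_mul]; ring
  have c2 : ContinuousAt (fun z : ℂ × ℂ => z.2 - z.1) (p, q) := by fun_prop
  filter_upwards [t1.eventually hf, cκ.eventually (κ0 ▸ Ioo_mem_nhds k0 k1 :),
    c2.eventually_ne ne] with z h1 h2 h3 h4
  refine h4 (κ z) h2.1 h2.2 ⟨f z, ?_⟩
  rw [← par_eq h3 (h1.2 rfl)]; ring

end Pool.Agent.H.MP_3080d1_gt
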